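import Pool.Agent.H55.Cos.Canon
import Pool.Agent.H55.Cos.Defs

/-!
The space and the group of project COS (MP_61a9b3_gt).
-/

set_option warn.classDefReducibility false

namespace Pool.Agent.H55.Cos

open Set Filter Topology

/-- the coarse space: tag × level × x × y, with the (compact) product topology as instance -/
abbrev XX := Cant × Cant × Cant × Cant

def tg (z : XX) : Cant := z.1
def lv (z : XX) : Cant := z.2.1
def xc (z : XX) : Cant := z.2.2.1
def yc (z : XX) : Cant := z.2.2.2

noncomputable def g1 (z : XX) : ℝ := gg (xc z)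
noncomputable def g2 (z : XX) : ℝ := gg (yc z)

/-- at most `k` elements in the level coordinate -/
def FF (k : ℕ) : Set XX := {z | lv z ∉ GE (k + 1)}

/-- the base topology `σ` -/
noncomputable def sig : TopologicalSpace XX :=
  (inferInstance : TopologicalSpace XX) ⊓
    (TopologicalSpace.induced g1 inferInstance ⊓ TopologicalSpace.induced g2 inferInstance)

/-- a fixed enumeration of a basis of `σ` (junk if there is none, but there is: module COD) -/
noncomputable def sigB : ℕ → Set XX := by
  classical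
  exact if h : ∃ B : ℕ → Set XX, (∀ n, @IsOpen XX sig (B n)) ∧
      ∀ U : Set XX, @IsOpen XX sig U → ∀ z ∈ U, ∃ n, z ∈ B n ∧ B n ⊆ U
    then h.choose else fun _ => ∅

/-- the set coded by the even part of `c` -/
def Ucode (c : Cant) : Set XX := ⋃ (k : ℕ) (i : ℕ) (_ : c (2 * Nat.pair k i) = true), sigB i ∩ FF k

/-- the set coded by the odd part of `c` -/
def Vcode (c : Cant) : Set XX := ⋃ (k : ℕ) (i : ℕ) (_ : c (2 * Nat.pair k i + 1) = true), sigB i ∩ FF k

/-- points of finite level -/
def Mfin : Set XX := {z | ¬ Inf (lv z)}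

/-- a tree system in the slice `tag = c` outside `U ∪ V` -/
structure GoodTree (c : Cant) (U V : Set XX) (S : TreeSys XX) : Prop where
  tag : ∀ s, tg (S.w s) = c
  levfin : ∀ s, ¬ Inf (lv (S.w s))
  xinf : ∀ s, Inf (xc (S.w s))
  yinf : ∀ s, Inf (yc (S.w s))
  out : ∀ s, S.w s ∉ U ∧ S.w s ∉ V
  lev : ∀ s k, ∀ᶠ n in atTop, Disjoint (S.C (n :: s)) (FF k)
  deep : ∀ s, ∀ z ∈ S.C s, lv z ∈ GE s.length ∧ xc z ∈ GE s.length ∧ yc z ∈ GE s.length
  small : ∀ s, ∀ z ∈ S.C s, ∀ i < s.length, tg z i = tg (S.w s) i ∧ lv z i = lv (S.w s) i ∧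
    xc z i = xc (S.w s) i ∧ yc z i = yc (S.w s) i

/-- the function with code `c` -/
noncomputable def fc (c : Cant) : XX → ℝ := by
  classical
  exact if h : ∃ S : TreeSys XX, GoodTree c (Ucode c) (Vcode c) S then h.choose.f else fun _ => 0

/-- index type of the functions: constant 1, `g1`, `g2`, `fc c` -/
abbrev Idx := Option (Bool ⊕ Cant)

/-- the family of functions -/
noncomputable def phi : Idx → XX → ℝ
  | none => fun _ => 1
  | some (Sum.inl false) => g1
  | some (Sum.inl true) => g2
  | some (Sum.inr c) => fc c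

/-- the three basic indices -/
def basic : Set Idx := {none, some (Sum.inl false), some (Sum.inl true)}

/-- the topology on `XX` generated by the coarse topology and the functions `phi i`, `i ∈ I` -/
noncomputable def tau (I : Set Idx) : TopologicalSpace XX :=
  (inferInstance : TopologicalSpace XX) ⊓ ⨅ i ∈ I, TopologicalSpace.induced (phi i) inferInstance

/-- the final topology on `XX` -/
noncomputable def tauU : TopologicalSpace XX := tau Set.univ

/-- `s` has a basis of relatively clopen sets (dimension 0 or empty) -/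
def ZD {M : Type} [TopologicalSpace M] (s : Set M) : Prop :=
  ∀ x ∈ s, ∀ O : Set M, IsOpen O → x ∈ O → ∃ A B : Set M, IsOpen A ∧ IsOpen B ∧ x ∈ A ∧ A ∩ s ⊆ O ∧
    s ⊆ A ∪ B ∧ A ∩ B ∩ s = ∅

/-- any two closed sets which are disjoint in `s` are separated by a relatively clopen set -/
def SZD {M : Type} [TopologicalSpace M] (s : Set M) : Prop :=
  ∀ P Q : Set M, IsClosed P → IsClosed Q → P ∩ Q ∩ s = ∅ → ∃ A B : Set M, IsOpen A ∧ IsOpen B ∧
    P ∩ s ⊆ A ∧ Q ∩ s ⊆ B ∧ s ⊆ A ∪ B ∧ A ∩ B ∩ s = ∅

/-- a partition of `XX` (in the final topology) between `{g2 ≤ 1/4}` and `{g2 ≥ 3/4}` whose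
middle part `(U ∪ V)ᶜ` is zero-dimensional: we shall show that this does not exist -/
structure Part (U V : Set XX) : Prop where
  oU : @IsOpen XX tauU U
  oV : @IsOpen XX tauU V
  disj : Disjoint U V
  hA : ∀ z, g2 z ≤ 1 / 4 → z ∈ U
  hB : ∀ z, 3 / 4 ≤ g2 z → z ∈ V
  zd : @ZD XX tauU (U ∪ V)ᶜ

/-- the group: the free abelian group over `XX` -/
abbrev GG : Type := XX →₀ ℤ

open Classical in
/-- `χ_U * phi i` -/
noncomputable def ch (U : TopologicalSpace.Clopens XX) (i : Idx) (z : XX) : ℝ :=
  if z ∈ U then phi i z else 0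

/-- the homomorphism extending `χ_U * phi i` -/
noncomputable def hm (U : TopologicalSpace.Clopens XX) (i : Idx) : GG →+ ℝ :=
  Finsupp.liftAddHom (fun z : XX => (AddMonoidHom.mulRight (ch U i z)).comp (Int.castAddHom ℝ))

/-- the topology on the group given by the index set `I` -/
noncomputable def TT (I : Set Idx) : TopologicalSpace GG :=
  ⨅ (U : TopologicalSpace.Clopens XX), ⨅ i ∈ I, TopologicalSpace.induced (hm U i) inferInstance

/-- the generator given by a point -/
noncomputable def de (z : XX) : GG := Finsupp.single z (1 : ℤ)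

/-- the map `z ↦ ∑ k_j z_j` -/
noncomputable def io {r : ℕ} (k : Fin r → ℤ) (z : Fin r → XX) : GG :=
  ∑ j, Finsupp.single (z j) (k j)

/-- the pieces of the group -/
def pc {r : ℕ} (k : Fin r → ℤ) (U : Fin r → TopologicalSpace.Clopens XX) : Set GG :=
  io k '' {z | ∀ j, z j ∈ U j}

/-- the topology on the power `XX^r` belonging to `tau I` -/
noncomputable def tp (I : Set Idx) (r : ℕ) : TopologicalSpace (Fin r → XX) :=
  @Pi.topologicalSpace (Fin r) (fun _ => XX) (fun _ => tau I)

/-- the topology generated by the given topology and a sequence of functions -/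
def fineT {Z : Type} [t : TopologicalSpace Z] (F : ℕ → Z → ℝ) : TopologicalSpace Z :=
  t ⊓ ⨅ m, TopologicalSpace.induced (F m) inferInstance

theorem hm_single (U : TopologicalSpace.Clopens XX) (i : Idx) (z : XX) (k : ℤ) :
    hm U i (Finsupp.single z k) = (k : ℝ) * ch U i z := by
  unfold hm
  rw [Finsupp.liftAddHom_apply_single]
  simp

theorem hm_de (U : TopologicalSpace.Clopens XX) (i : Idx) (z : XX) : hm U i (de z) = ch U i z := by
  unfold de
  rw [hm_single]; simp

theorem hm_io (U : TopologicalSpace.Clopens XX) (i : Idx) {r : ℕ} (k : Fin r → ℤ) (z : Fin r → XX) :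
    hm U i (io k z) = ∑ j, (k j : ℝ) * ch U i (z j) := by
  unfold io
  rw [map_sum]
  exact Finset.sum_congr rfl fun j _ => hm_single U i (z j) (k j)

end Pool.Agent.H55.Cos
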