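import Pool.Agent.H55.Cos.Core

/-!
Statements of all modules of project COS.
-/

set_option warn.classDefReducibility false

namespace Pool.Agent.H55.Cos

open Set Filter Topology

/-! ### A. tree functions -/

/-- TCON: the tree function is continuous off the nodes -/
def TCONStmt : Prop := ∀ (Y : Type) [TopologicalSpace Y] [T2Space Y] (S : TreeSys Y) (y : Y),
  (∀ s, y ≠ S.w s) → ContinuousAt S.f y

/-- TTAM: tree functions are tame -/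
def TTAMStmt : Prop := ∀ (Y : Type) [TopologicalSpace Y] (S : TreeSys Y), Tame S.f

/-! ### B. the Cantor space -/

def CAN1Stmt : Prop := ∀ x : Cant, Inf x ∨ ∃ s, x = nd s

def CAN2Stmt : Prop := ∀ x : Cant, Inf x →
  (∀ k : ℕ, ∃ s : List ℕ, s.length = k ∧ x ∈ canon.C s) ∧
  (∀ O ∈ 𝓝 x, ∀ k : ℕ, ∃ s : List ℕ, k ≤ s.length ∧ x ∈ canon.C s ∧ canon.C s ⊆ O)

def CAN3Stmt : Prop := ∀ O : Set Cant, IsOpen O → O.Nonempty → ∃ s, canon.C s ⊆ O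

def CAN4Stmt : Prop := ∀ (s : List ℕ), ∀ N ∈ 𝓝 (nd s), ∀ η : ℝ, 0 < η →
  ∃ x ∈ N, Inf x ∧ |gg x - val s| < η

def CAN5Stmt : Prop := ∀ W : ℕ → Set Cant, (∀ n, IsOpen (W n)) → (∀ n, Dense (W n)) →
  ∀ s, ∃ x ∈ canon.C s, Inf x ∧ ∀ n, x ∈ W n

def CAN6Stmt : Prop := (∀ k, IsOpen (GE k)) ∧ (∀ x : Cant, Inf x ↔ ∀ k, x ∈ GE k) ∧
  (∀ k, GE (k + 1) ⊆ GE k)

def CAN7Stmt : Prop := ∀ l : Cant, ¬ Inf l → ∀ N ∈ 𝓝 l, ∀ k, ∃ l' ∈ N, ¬ Inf l' ∧ l' ∈ GE k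

/-! ### C. slabs -/

/-- SLAB: slabs of rationally independent combinations of tame functions have fine clopen partitions -/
def SLABStmt : Prop := ∀ (Z : Type) [TopologicalSpace Z] (n : ℕ) (F : Fin n → Z → ℝ) (k : Fin n → ℝ),
  (∀ m, Tame (F m)) → LinearIndependent ℚ k →
  ∀ η : ℝ, 0 < η → ∃ τ : ℝ, 0 < τ ∧ ∀ s : ℝ, ∃ c : Z → ℕ,
    (∀ z, |∑ m, k m * F m z - s| ≤ τ → ∃ O ∈ 𝓝 z, ∃ δ : ℝ, 0 < δ ∧ ∀ z' ∈ O,
        |∑ m, k m * F m z' - s| ≤ τ → (∀ m, |F m z' - F m z| < δ) → c z' = c z) ∧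
    (∀ z z', |∑ m, k m * F m z - s| ≤ τ → |∑ m, k m * F m z' - s| ≤ τ → c z = c z' →
        ∀ m, |F m z - F m z'| ≤ η)

/-- the weights: all 1, or one of them 2 -/
def Wt (w : ℕ → ℝ) : Prop := (w = fun _ => 1) ∨ ∃ l : ℕ, w = fun m => if m = l then 2 else 1

/-- WEI: for a sequence of tame functions there are weights such that all level sets of
`∑ a_m F_m` and of `∑ a_m F_m + a_l F_l` have arbitrarily fine clopen partitions -/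
def WEIStmt : Prop := ∀ (Z : Type) [TopologicalSpace Z] (F : ℕ → Z → ℝ),
  (∀ m, Tame (F m)) → (∀ m z, |F m z| ≤ 1) →
  ∃ a : ℕ → ℝ, (∀ m, 0 < a m) ∧ Summable a ∧
    ∀ w : ℕ → ℝ, Wt w → ∀ (s : ℝ) (N : ℕ), ∃ (N' : ℕ) (c : Z → ℕ),
      (∀ z, ∑' m, w m * a m * F m z = s → ∃ O ∈ 𝓝 z, ∃ δ : ℝ, 0 < δ ∧ ∀ z' ∈ O,
          ∑' m, w m * a m * F m z' = s → (∀ m ≤ N', |F m z' - F m z| < δ) → c z' = c z) ∧
      (∀ z z', ∑' m, w m * a m * F m z = s → ∑' m, w m * a m * F m z' = s → c z = c z' →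
          ∀ m ≤ N, |F m z - F m z'| ≤ 1 / ((N : ℝ) + 1))

/-- a clopen basis -/
def CB (Z : Type) [TopologicalSpace Z] : Prop :=
  ∀ z : Z, ∀ O ∈ 𝓝 z, ∃ C : Set Z, IsClopen C ∧ z ∈ C ∧ C ⊆ O

/-- DEC: the fine topology is the union of a zero-dimensional set and countably many
zero-dimensional closed sets -/
def DECStmt : Prop := ∀ (Z : Type) [TopologicalSpace Z], CB Z → ∀ F : ℕ → Z → ℝ,
  (∀ m, Tame (F m)) → (∀ m z, |F m z| ≤ 1) →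
  ∃ K : ℕ → Set Z, (∀ n, @IsClosed Z (fineT F) (K n)) ∧ (∀ n, @ZD Z (fineT F) (K n)) ∧
    @ZD Z (fineT F) (⋃ n, K n)ᶜ

/-! ### D. zero-dimensional sets -/

def ZDAStmt : Prop := ∀ (M : Type) [TopologicalSpace M] [SecondCountableTopology M] (s : Set M),
  ZD s → SZD s

def ZDBStmt : Prop := ∀ (M : Type) [TopologicalSpace M] [TopologicalSpace.MetrizableSpace M]
  (s : Set M) (K : ℕ → Set M), (∀ n, IsClosed (K n)) → s ⊆ ⋃ n, K n → (∀ n, SZD (s ∩ K n)) → SZD s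

def ZDCStmt : Prop := ∀ (M : Type) [TopologicalSpace M] [TopologicalSpace.MetrizableSpace M]
  (s : Set M) (q : ℕ) (U : Fin q → Set M), SZD s → (∀ i, IsOpen (U i)) → s ⊆ ⋃ i, U i →
  ∃ O : Fin q → Set M, (∀ i, IsOpen (O i)) ∧ (∀ i, O i ⊆ U i) ∧ s ⊆ ⋃ i, O i ∧
    ∀ i j, i ≠ j → Disjoint (O i) (O j)

def ZDDStmt : Prop := ∀ (M : Type) [TopologicalSpace M] [TopologicalSpace.MetrizableSpace M]
  [SecondCountableTopology M] (K : ℕ → Set M) (D : ℕ → ℕ → Set M), (∀ n, IsClosed (K n)) →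
  (⋃ n, K n) = Set.univ → (∀ n j, IsClosed (D n j)) → (∀ n j, D n j ⊆ K n) → (∀ n j, ZD (D n j)) →
  (∀ n, ZD (K n \ ⋃ j, D n j)) → CovLT M 2

/-! ### E. the space -/

def SIGStmt : Prop := (∀ n, @IsOpen XX sig (sigB n)) ∧
  ∀ U : Set XX, @IsOpen XX sig U → ∀ z ∈ U, ∃ n, z ∈ sigB n ∧ sigB n ⊆ U

def CODStmt : Prop := ∀ U V : Set XX,
  (∀ k, ∃ O, @IsOpen XX sig O ∧ U ∩ FF k = O ∩ FF k) →
  (∀ k, ∃ O, @IsOpen XX sig O ∧ V ∩ FF k = O ∩ FF k) →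
  ∃ c, Ucode c = U ∩ Mfin ∧ Vcode c = V ∩ Mfin

/-- ACTA -/
def ACTAStmt : Prop := (∀ z : XX, Inf (xc z) → ContinuousAt g1 z) ∧
  (∀ z : XX, Inf (yc z) → ContinuousAt g2 z)

/-- ACTB -/
def ACTBStmt : Prop := ∀ (c : Cant) (z : XX),
  (Inf (lv z) ∨ ¬ Inf (xc z) ∨ ¬ Inf (yc z) ∨ tg z ≠ c) → ContinuousAt (fc c) z

/-- ACTC -/
def ACTCStmt : Prop := ∀ (c : Cant) (k : ℕ), ∀ z ∈ FF k, ContinuousWithinAt (fc c) (FF k) z

/-- PTAM: all functions are tame, bounded by 1, also on powers -/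
def PTAMStmt : Prop := (∀ i z, |phi i z| ≤ 1) ∧
  ∀ (i : Idx) (r : ℕ) (j : Fin r), Tame (fun z : Fin r → XX => phi i (z j))

def NBHStmt : Prop := ∀ (I : Set Idx) (U : Set XX), @IsOpen XX (tau I) U → ∀ z ∈ U,
  ∃ O ∈ 𝓝 z, ∃ η : ℝ, 0 < η ∧ ∃ s : Finset Idx, (∀ i ∈ s, i ∈ I ∧ ¬ ContinuousAt (phi i) z) ∧
    ∀ z' ∈ O, (∀ i ∈ s, |phi i z' - phi i z| < η) → z' ∈ U

def FKNStmt : Prop := ∀ U : Set XX, @IsOpen XX tauU U → ∀ (k : ℕ) (z : XX), z ∈ U → z ∈ FF k →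
  ∃ O ∈ 𝓝 z, ∃ η : ℝ, 0 < η ∧ ∀ z' ∈ O, z' ∈ FF k → |g1 z' - g1 z| < η → |g2 z' - g2 z| < η → z' ∈ U

def FKOStmt : Prop := ∀ U : Set XX, @IsOpen XX tauU U → ∀ k : ℕ,
  ∃ O, @IsOpen XX sig O ∧ U ∩ FF k = O ∩ FF k

/-- NBX: neighbourhoods of points with infinite x and finite y -/
def NBXStmt : Prop := ∀ U : Set XX, @IsOpen XX tauU U → ∀ z ∈ U, Inf (xc z) → ¬ Inf (yc z) →
  ∃ O ∈ 𝓝 z, ∃ η : ℝ, 0 < η ∧ ∀ z' ∈ O, |g2 z' - g2 z| < η → z' ∈ U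

/-- NBW: neighbourhoods of the nodes of a good tree -/
def NBWStmt : Prop := ∀ (c : Cant) (S : TreeSys XX) (A B : Set XX), GoodTree c A B S → fc c = S.f →
  ∀ U : Set XX, @IsOpen XX tauU U → ∀ s, S.w s ∈ U →
  ∃ O ∈ 𝓝 (S.w s), ∃ η : ℝ, 0 < η ∧ ∀ z' ∈ O, |S.f z' - val s| < η → z' ∈ U

/-- NBI: neighbourhoods of points with all coordinates infinite -/
def NBIStmt : Prop := ∀ U : Set XX, @IsOpen XX tauU U → ∀ z ∈ U, Inf (lv z) → Inf (xc z) →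
  Inf (yc z) → U ∈ 𝓝 z

/-- bracket in the y-direction, over a neighbourhood in (level, x) -/
def GB (U V : Set XX) (c : Cant) (O : Set (Cant × Cant)) (s : List ℕ) : Prop :=
  canon.BR (fun y => ∀ p ∈ O, ((c, p.1, p.2, y) : XX) ∈ U)
    (fun y => ∀ p ∈ O, ((c, p.1, p.2, y) : XX) ∈ V) s ∨
  canon.BR (fun y => ∀ p ∈ O, ((c, p.1, p.2, y) : XX) ∈ V)
    (fun y => ∀ p ∈ O, ((c, p.1, p.2, y) : XX) ∈ U) s

/-- robust points of the partition -/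
def Rob (U V : Set XX) (z : XX) : Prop := ¬ Inf (lv z) ∧ Inf (xc z) ∧ Inf (yc z) ∧ z ∉ U ∧ z ∉ V ∧
  ∀ k : ℕ, ∃ s : List ℕ, k ≤ s.length ∧ yc z ∈ canon.C s ∧
    ∃ O : Set (Cant × Cant), IsOpen O ∧ (lv z, xc z) ∈ O ∧ GB U V (tg z) O s

def E1Stmt : Prop := ∀ U V : Set XX, Part U V → ∀ (c l : Cant), ¬ Inf l → ∀ d s : List ℕ,
  ∃ x ∈ canon.C s, Inf x ∧ ((c, l, x, nd d) : XX) ∈ U ∪ V

def E2Stmt : Prop := ∀ U V : Set XX, Part U V → ∀ (c l : Cant), ¬ Inf l → ∀ s : List ℕ,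
  ∃ x ∈ canon.C s, Inf x ∧ ∀ d : List ℕ, ((c, l, x, nd d) : XX) ∈ U ∪ V

/-- E3: start and step of the bracket -/
def E3Stmt : Prop := ∀ U V : Set XX, Part U V → ∀ (c l x : Cant), Inf x →
  (∀ d : List ℕ, ((c, l, x, nd d) : XX) ∈ U ∪ V) →
  (∃ O : Set (Cant × Cant), IsOpen O ∧ (l, x) ∈ O ∧ ∃ s, GB U V c O s) ∧
  (∀ (O : Set (Cant × Cant)) (s : List ℕ), IsOpen O → (l, x) ∈ O → GB U V c O s → ∀ N : ℕ,
    ∃ n, N ≤ n ∧ ∃ O' ⊆ O, IsOpen O' ∧ (l, x) ∈ O' ∧ GB U V c O' (n :: s))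

def E4Stmt : Prop := ∀ U V : Set XX, Part U V → ∀ (c l x : Cant), ¬ Inf l → Inf x →
  (∀ d : List ℕ, ((c, l, x, nd d) : XX) ∈ U ∪ V) →
  ∀ (O : Set (Cant × Cant)) (s : List ℕ), IsOpen O → (l, x) ∈ O → GB U V c O s →
  ∃ y ∈ canon.C s, Rob U V (c, l, x, y)

def E5Stmt : Prop := ∀ U V : Set XX, Part U V →
  (∀ c, ∃ z, Rob U V z ∧ tg z = c) ∧
  (∀ z, Rob U V z → ∀ N ∈ 𝓝 z, ∀ k, ∃ z' ∈ N, Rob U V z' ∧ tg z' = tg z ∧ z' ∉ FF k)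

/-- E6: building a tree system from robust points -/
def E6Stmt : Prop := ∀ R : Set XX, (∀ z ∈ R, ¬ Inf (lv z) ∧ Inf (xc z) ∧ Inf (yc z)) →
  (∀ z ∈ R, ∀ N ∈ 𝓝 z, ∀ k, ∃ z' ∈ N, z' ∈ R ∧ z' ∉ FF k) → R.Nonempty →
  ∃ S : TreeSys XX, (∀ s, S.w s ∈ R) ∧
    (∀ s k, ∀ᶠ n in atTop, Disjoint (S.C (n :: s)) (FF k)) ∧
    (∀ s, ∀ z ∈ S.C s, lv z ∈ GE s.length ∧ xc z ∈ GE s.length ∧ yc z ∈ GE s.length) ∧
    (∀ s, ∀ z ∈ S.C s, ∀ i < s.length, tg z i = tg (S.w s) i ∧ lv z i = lv (S.w s) i ∧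
      xc z i = xc (S.w s) i ∧ yc z i = yc (S.w s) i)

/-- E7: the contradiction in a good tree -/
def E7Stmt : Prop := ∀ U V : Set XX, Part U V → ∀ (c : Cant) (S : TreeSys XX),
  GoodTree c (U ∩ Mfin) (V ∩ Mfin) S → fc c = S.f → False

/-- IND: there is no zero-dimensional partition -/
def INDStmt : Prop := ∀ U V : Set XX, ¬ Part U V

/-! ### F. the group -/

def GTGStmt : Prop := (∀ I : Set Idx, @IsTopologicalAddGroup GG (TT I) _) ∧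
  ∀ I : Set Idx, none ∈ I → @T2Space GG (TT I)

/-- DEI: the space is a closed subspace of the group -/
def DEIStmt : Prop := ∀ I : Set Idx, none ∈ I →
  tau I = TopologicalSpace.induced de (TT I) ∧ @IsClosed GG (TT I) (Set.range de)

/-- PCC: the pieces cover the group -/
def PCCStmt : Prop := ∀ g : GG, ∃ (r : ℕ) (k : Fin r → ℤ) (U : Fin r → TopologicalSpace.Clopens XX),
  (∀ j, k j ≠ 0) ∧ (∀ i j, i ≠ j → Disjoint (U i : Set XX) (U j)) ∧ g ∈ pc k U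

/-- PCL: the pieces are closed -/
def PCLStmt : Prop := ∀ (I : Set Idx), none ∈ I → ∀ (r : ℕ) (k : Fin r → ℤ)
  (U : Fin r → TopologicalSpace.Clopens XX), @IsClosed GG (TT I) (pc k U)

/-- PCE: the pieces are embedded products -/
def PCEStmt : Prop := ∀ (I : Set Idx), none ∈ I → ∀ (r : ℕ) (k : Fin r → ℤ)
  (U : Fin r → TopologicalSpace.Clopens XX), (∀ j, k j ≠ 0) →
  (∀ i j, i ≠ j → Disjoint (U i : Set XX) (U j)) →
  (∀ z z' : Fin r → XX, (∀ j, z j ∈ U j) → (∀ j, z' j ∈ U j) → io k z = io k z' → z = z') ∧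
  (∀ A : Set GG, @IsOpen GG (TT I) A → @IsOpen (Fin r → XX) (tp I r) (io k ⁻¹' A)) ∧
  (∀ A : Set (Fin r → XX), @IsOpen (Fin r → XX) (tp I r) A →
    ∃ A' : Set GG, @IsOpen GG (TT I) A' ∧ ∀ z, (∀ j, z j ∈ U j) → (z ∈ A ↔ io k z ∈ A'))

/-- SEC: countably many functions give a second countable metrizable group -/
def SECStmt : Prop := ∀ I : Set Idx, I.Countable → none ∈ I →
  @SecondCountableTopology GG (TT I) ∧ @TopologicalSpace.MetrizableSpace GG (TT I)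

/-- KDE: decomposition of the powers -/
def KDEStmt : Prop := ∀ I : Set Idx, I.Countable → ∀ r : ℕ, ∃ K : ℕ → Set (Fin r → XX),
  (∀ n, @IsClosed (Fin r → XX) (tp I r) (K n)) ∧ (∀ n, @ZD (Fin r → XX) (tp I r) (K n)) ∧
  @ZD (Fin r → XX) (tp I r) (⋃ n, K n)ᶜ

/-- PCD: decomposition of the pieces -/
def PCDStmt : Prop := ∀ I : Set Idx, I.Countable → none ∈ I → ∀ (r : ℕ) (k : Fin r → ℤ)
  (U : Fin r → TopologicalSpace.Clopens XX), (∀ j, k j ≠ 0) →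
  (∀ i j, i ≠ j → Disjoint (U i : Set XX) (U j)) →
  ∃ D : ℕ → Set GG, (∀ n, @IsClosed GG (TT I) (D n)) ∧ (∀ n, D n ⊆ pc k U) ∧
    (∀ n, @ZD GG (TT I) (D n)) ∧ @ZD GG (TT I) (pc k U \ ⋃ n, D n)

/-- DIC: dimension at most one for countable index sets -/
def DICStmt : Prop := ∀ I : Set Idx, I.Countable → none ∈ I → @CovLT GG (TT I) 2

/-- NET: countable network -/
def NETStmt : Prop := @HasCountableNetwork GG (TT Set.univ)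

/-- LIN: finite open covers are refined by covers which are open for a countable index set -/
def LINStmt : Prop := ∀ U : Set (Set GG), U.Finite → (∀ A ∈ U, @IsOpen GG (TT Set.univ) A) →
  ⋃₀ U = Set.univ → ∃ I : Set Idx, I.Countable ∧ none ∈ I ∧ ∃ h : Set GG → Set GG,
    (∀ A ∈ U, @IsOpen GG (TT I) (h A) ∧ h A ⊆ A) ∧ (⋃ A ∈ U, h A) = Set.univ

/-- DIM: covering dimension at most 1 -/
def DIMStmt : Prop := @CovLT GG (TT Set.univ) 2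

/-- IGG: large inductive dimension at least 2 -/
def IGGStmt : Prop := ¬ @LargeLT 2 GG (TT Set.univ)

/-- FIN: the final theorem -/
def FINStmt : Prop :=
  (∃ (G : Type) (_ : CommGroup G) (_ : TopologicalSpace G), IsTopologicalGroup G ∧ T2Space G ∧
    HasCountableNetwork G ∧ covDim G ≤ 1 ∧ 2 ≤ largeInd G) ∧
  ¬ ∀ (G : Type) [Group G] [TopologicalSpace G] [IsTopologicalGroup G] [T2Space G],
    HasCountableNetwork G → covDim G = largeInd G ∧ largeInd G = smallInd G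

end Pool.Agent.H55.Cos
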